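import Pool.Agent.X136.HT.Main

set_option autoImplicit false

/-!
# No gap between the plane and the spanning threshold for `d = 4`, `θ = 3`

Bootstrap percolation with threshold `θ` on the Hamming torus `H(n,d)`.  We show that for `d = 4` and
`θ = 3` the difference `log_n p_c(d,d) - log_n p_c(2,d)` tends to zero.  This answers Q2 of
MP_af82af_pr in the negative.

Definitions (`Pool.Agent.X136.HT.Defs`): `Vert n d = Fin d → Fin n`, `Adj` (two vertices differ in
exactly one coordinate), `step θ`, `final θ` (bootstrap dynamics), `face J b` (the subgraph with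
free coordinates `J`), `HasOpen θ i A` (some `i`-dimensional subgraph is open in the final
configuration started from `A`), `prob n d θ i p` (its probability for Bernoulli(`p`) initial
configurations) and `pc n d θ i` (the threshold).
-/

namespace Pool.Agent.Results.MP_af82af_pr.NoGap

open Filter Topology Pool.Agent.X136.HT

/-- There are `d ≥ 4` and `θ > 2` (namely `d = 4`, `θ = 3`) such that
`log_n p_c(d,d) - log_n p_c(2,d) → 0`; in particular its `liminf` is `0`.  Here the thresholds are
solutions of the equation `P_p = 1/2`. -/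
theorem result : ∃ d θ : ℕ, 4 ≤ d ∧ 2 < θ ∧
    (∀ n : ℕ, 1 ≤ n → ∀ i : ℕ, i ≤ d → ∃ h : pc n d θ i ∈ Set.Icc (0 : ℝ) 1,
      prob n d θ i ⟨pc n d θ i, h⟩ = 1 / 2) ∧
    Tendsto (fun n : ℕ => Real.logb n (pc n d θ d) - Real.logb n (pc n d θ 2)) atTop (𝓝 0) ∧
    liminf (fun n : ℕ => Real.logb n (pc n d θ d) - Real.logb n (pc n d θ 2)) atTop = 0 :=
  ⟨4, 3, le_rfl, by norm_num, fun _ hn _ hi => ⟨pc_mem hn hi, pc_spec hn hi (by norm_num)⟩,
    gap_tendsto, gap_tendsto.liminf_eq⟩

end Pool.Agent.Results.MP_af82af_pr.NoGap
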